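import Pool.Agent.Helper89.TL.Main

/-!
A sanity check of the definitions: a square of side `5` cut into squares of the sides
`3, 2, 2, 2, 1, 1, 1, 1`, one of which does not touch the boundary, and two further edges.
-/

set_option autoImplicit false

namespace Pool.Agent.Helper66.TL

open Pool.Agent.Helper42.Th (CMap Lab)
open Pool.Agent.Helper24.T8 (dual)
open Pool.Agent.Helper89.TL

/-- The next dart at the same vertex, counterclockwise. -/
def rotTab : Fin 22 → Fin 22 :=
  ![12, 5, 0, 21, 3, 9, 4, 8, 7, 17, 20, 13, 10, 14, 11, 16, 19, 1, 6, 15, 2, 18]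

/-- The inverse of `rotTab`. -/
def rotInv : Fin 22 → Fin 22 :=
  ![2, 17, 20, 4, 6, 1, 18, 8, 7, 5, 12, 14, 0, 11, 13, 19, 15, 9, 21, 16, 10, 3]

/-- The same edge in the other direction. -/
def flipTab : Fin 22 → Fin 22 :=
  ![1, 0, 3, 2, 5, 4, 7, 6, 9, 8, 11, 10, 13, 12, 15, 14, 17, 16, 19, 18, 21, 20]

/-- The heights of the vertices. -/
def hgt : Fin 22 → ℤ :=
  ![0, 5, 0, 3, 3, 5, 3, 4, 4, 5, 0, 1, 0, 1, 1, 3, 3, 5, 3, 3, 0, 3]

/-- The positions of the faces. -/
def pos : Fin 22 → ℤ :=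
  ![5, 0, 0, 3, 0, 2, 2, 3, 2, 3, 3, 4, 4, 5, 3, 5, 3, 5, 3, 3, 3, 3]

/-- The diagram. -/
def Γ : CMap (Fin 22) where
  rot := ⟨rotTab, rotInv, by decide, by decide⟩
  flip := ⟨flipTab, flipTab, by decide, by decide⟩
  flip_flip := by decide
  flip_ne := by decide
  conn W hne hW := by
    have hr : ∀ d ∈ W, rotTab d ∈ W := fun d hd => (hW d hd).1
    have hf : ∀ d ∈ W, flipTab d ∈ W := fun d hd => (hW d hd).2
    -- from every dart one reaches the dart `0`
    have step : ∀ d ∈ W, (0 : Fin 22) ∈ W := by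
      have e0 : (0 : Fin 22) ∈ W → (0 : Fin 22) ∈ W := id
      have e2 : (2 : Fin 22) ∈ W → (0 : Fin 22) ∈ W := fun h => hr 2 h
      have e20 : (20 : Fin 22) ∈ W → (0 : Fin 22) ∈ W := fun h => e2 (hr 20 h)
      have e10 : (10 : Fin 22) ∈ W → (0 : Fin 22) ∈ W := fun h => e20 (hr 10 h)
      have e12 : (12 : Fin 22) ∈ W → (0 : Fin 22) ∈ W := fun h => e10 (hr 12 h)
      have e1 : (1 : Fin 22) ∈ W → (0 : Fin 22) ∈ W := fun h => e0 (hf 1 h)
      have e17 : (17 : Fin 22) ∈ W → (0 : Fin 22) ∈ W := fun h => e1 (hr 17 h)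
      have e9 : (9 : Fin 22) ∈ W → (0 : Fin 22) ∈ W := fun h => e17 (hr 9 h)
      have e5 : (5 : Fin 22) ∈ W → (0 : Fin 22) ∈ W := fun h => e9 (hr 5 h)
      have e3 : (3 : Fin 22) ∈ W → (0 : Fin 22) ∈ W := fun h => e2 (hf 3 h)
      have e4 : (4 : Fin 22) ∈ W → (0 : Fin 22) ∈ W := fun h => e3 (hr 4 h)
      have e6 : (6 : Fin 22) ∈ W → (0 : Fin 22) ∈ W := fun h => e4 (hr 6 h)
      have e18 : (18 : Fin 22) ∈ W → (0 : Fin 22) ∈ W := fun h => e6 (hr 18 h)
      have e21 : (21 : Fin 22) ∈ W → (0 : Fin 22) ∈ W := fun h => e18 (hr 21 h)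
      have e8 : (8 : Fin 22) ∈ W → (0 : Fin 22) ∈ W := fun h => e9 (hf 8 h)
      have e7 : (7 : Fin 22) ∈ W → (0 : Fin 22) ∈ W := fun h => e6 (hf 7 h)
      have e11 : (11 : Fin 22) ∈ W → (0 : Fin 22) ∈ W := fun h => e10 (hf 11 h)
      have e13 : (13 : Fin 22) ∈ W → (0 : Fin 22) ∈ W := fun h => e12 (hf 13 h)
      have e14 : (14 : Fin 22) ∈ W → (0 : Fin 22) ∈ W := fun h => e11 (hr 14 h)
      have e15 : (15 : Fin 22) ∈ W → (0 : Fin 22) ∈ W := fun h => e14 (hf 15 h)
      have e16 : (16 : Fin 22) ∈ W → (0 : Fin 22) ∈ W := fun h => e17 (hf 16 h)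
      have e19 : (19 : Fin 22) ∈ W → (0 : Fin 22) ∈ W := fun h => e15 (hr 19 h)
      intro d
      fin_cases d
      exacts [e0, e1, e2, e3, e4, e5, e6, e7, e8, e9, e10, e11, e12, e13, e14, e15, e16, e17,
        e18, e19, e20, e21]
    obtain ⟨d, hd⟩ := hne
    have m0 := step d hd
    have m12 := hr 0 m0
    have m10 := hr _ m12
    have m20 := hr _ m10
    have m2 := hr _ m20
    have m1 := hf _ m0
    have m5 := hr _ m1
    have m9 := hr _ m5
    have m17 := hr _ m9
    have m3 := hf _ m2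
    have m21 := hr _ m3
    have m18 := hr _ m21
    have m6 := hr _ m18
    have m4 := hr _ m6
    have m8 := hf _ m9
    have m7 := hf _ m6
    have m11 := hf _ m10
    have m13 := hf _ m12
    have m14 := hr _ m13
    have m15 := hf _ m14
    have m16 := hf _ m17
    have m19 := hf _ m18
    ext e
    simp only [Set.mem_univ, iff_true]
    fin_cases e
    exacts [m0, m1, m2, m3, m4, m5, m6, m7, m8, m9, m10, m11, m12, m13, m14, m15, m16, m17,
      m18, m19, m20, m21]

/-- The squares. -/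
def T : Finset (Fin 22) := {2, 4, 6, 8, 10, 12, 14, 16}

lemma cyc (d e : Fin 22) (n : ℕ) (h : (rotTab^[n]) d = e) : Γ.rot.SameCycle d e := by
  refine ⟨(n : ℤ), ?_⟩
  rw [zpow_natCast, ← h]
  clear h
  induction n generalizing d with
  | zero => rfl
  | succ n ih =>
    rw [pow_succ, Equiv.Perm.mul_apply, ih, Function.iterate_succ_apply]
    rfl

/-- The diagram dissects the square. -/
theorem diss : Dissection Γ 0 5 5 hgt pos T where
  h_pos := by decide
  k_pos := by decide
  Y_rot := by decide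
  A_rot := by decide
  Y_lo := by decide
  Y_hi := by decide
  A_lo := by decide
  A_hi := by decide
  mem := by decide
  tile := by decide
  wall := by
    intro d h1 h2
    have key : d = 20 := by
      revert d
      decide
    subst key
    exact Or.inl (cyc 0 20 3 (by decide))

/-- The sum of the sides is `13 < 15`. -/
theorem total_eq : total Γ hgt pos T = 13 := by decide

/-- The darts at the start of `δ`. -/
lemma orbit (m : ℕ) : (Γ.rot ^ m) 0 ∈ ({0, 12, 10, 20, 2} : Finset (Fin 22)) := by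
  induction m with
  | zero => decide
  | succ m ih =>
    rw [pow_succ', Equiv.Perm.mul_apply]
    have key : ∀ d ∈ ({0, 12, 10, 20, 2} : Finset (Fin 22)),
        Γ.rot d ∈ ({0, 12, 10, 20, 2} : Finset (Fin 22)) := by decide
    exact key _ ih

/-- A walk from the end of one of the two further edges to the end of `δ`. -/
lemma away : Γ.Away 0 21 1 := by
  have a1 : Γ.Away 0 1 1 := .refl 1
  have a17 : Γ.Away 0 17 1 := .rot 17 1 (by rw [show Γ.rot 17 = 1 by decide]; exact a1)
  have a9 : Γ.Away 0 9 1 := .rot 9 1 (by rw [show Γ.rot 9 = 17 by decide]; exact a17)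
  have a5 : Γ.Away 0 5 1 := .rot 5 1 (by rw [show Γ.rot 5 = 9 by decide]; exact a9)
  have a4 : Γ.Away 0 4 1 := .pass 4 1 (fun m h => by
    have := orbit m
    rw [h] at this
    revert this
    decide) (by rw [show Γ.flip 4 = 5 by decide]; exact a5)
  have a6 : Γ.Away 0 6 1 := .rot 6 1 (by rw [show Γ.rot 6 = 4 by decide]; exact a4)
  have a18 : Γ.Away 0 18 1 := .rot 18 1 (by rw [show Γ.rot 18 = 6 by decide]; exact a6)
  exact .rot 21 1 (by rw [show Γ.rot 21 = 18 by decide]; exact a18)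

/-- One of the two further edges leaves the first vertex. -/
theorem sharp : Sharp Γ 0 5 hgt pos := by
  refine ⟨20, 0, by decide, by decide, by decide, by decide, Or.inl ⟨cyc 0 20 3 (by decide), ?_⟩⟩
  exact away

section

variable {G : Type} [Group G] (L : Lab G Γ)

/-- The start of `δ` is not its end. -/
lemma no_loop (i : ℕ) : (Γ.rot ^ i) 0 ≠ Γ.flip 0 := fun h => by
  have := orbit i
  rw [h] at this
  revert this
  decide

/-- The darts with the same face as `δ`. -/
lemma orbit' (m : ℕ) : (Γ.dual.rot ^ m) 0 ∈ ({0, 13, 15, 17} : Finset (Fin 22)) := by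
  induction m with
  | zero => decide
  | succ m ih =>
    rw [pow_succ', Equiv.Perm.mul_apply]
    have key : ∀ d ∈ ({0, 13, 15, 17} : Finset (Fin 22)),
        Γ.flip (Γ.rot d) ∈ ({0, 13, 15, 17} : Finset (Fin 22)) := by decide
    exact key _ ih

/-- The two faces of `δ` are different. -/
lemma no_bridge (i : ℕ) : (Γ.dual.rot ^ i) 0 ≠ Γ.flip 0 := fun h => by
  have := orbit' i
  rw [h] at this
  revert this
  decide

/-- The lower end of the interval is `1`. -/
theorem low (hM : ∀ d, d ≠ 0 → d ≠ 1 → L.M d = L.D d) : Low Γ L 0 1 1 := by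
  refine .tiled Γ L 0 1 1 one_pos no_loop no_bridge 5 5 hgt pos T diss ∅ (fun _ => ∅)
    (fun d hd => hd.elim) (fun d hd => hd.elim) (fun d hd _ => ?_) ?_ ?_
  · have h1 : d ≠ 0 ∧ d ≠ 1 ∧ hgt (Γ.flip d) - hgt d = pos (Γ.flip d) - pos d := by
      revert d
      decide
    rw [hM d h1.1 h1.2.1, h1.2.2]
  · rw [total_eq]
    norm_num
  · right
    refine ⟨by norm_num, ?_, sharp⟩
    rw [total_eq]
    norm_num

/-- The end of the other interval is trivial. -/
theorem low' : Low Γ.dual (dual L) 0 0 1 := by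
  refine .zero Γ.dual (dual L) 0 no_bridge fun i h => ?_
  have key : ∀ m : ℕ, (Γ.dual.dual.rot ^ m) 0 = (Γ.rot ^ m) 0 := by
    have h2 : Γ.dual.dual.rot = Γ.rot := by
      ext d
      change ((Γ.flip (Γ.flip (Γ.rot d)) : Fin 22) : ℕ) = _
      rw [Γ.flip_flip]
    intro m
    rw [h2]
  rw [key] at h
  exact no_loop i h

/-- The fundamental group of the double cover of the almost alternating link of the diagram. -/
theorem example_closed (hM : ∀ d, d ≠ 0 → d ≠ 1 → L.M d = L.D d) (h0 : L.M 0 * L.D 0 = 1)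
    (hgen : Subgroup.closure L.elts = ⊤) :
    ¬ (Nontrivial G ∧ ∃ _ : LinearOrder G, ∀ f g h : G, g ≤ h → f * g ≤ f * h) := by
  refine main (P := {d | d ≠ 0 ∧ d ≠ 1}) (F := fun _ => ∅) (F₀ := ∅) (q := 1) (p := 1) (q' := 0)
    (p' := 1) (A := 1) (B := -1) (C := 1) (D := 0) (δ := 0) ?_ ?_ (low L hM) (low' L) ?_ ?_ ?_ ?_
    ?_ ?_ ?_
  · intro d h1 h2
    exact Or.inl ⟨h1, h2⟩
  · intro d hd
    exact .solid true _ _ 1 1 one_pos (fun _ => one_pos) (by rw [hM d hd.1 hd.2])
  · left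
    norm_num
  · norm_num
  · norm_num
  · norm_num
  · norm_num
  · refine .solid false _ _ 1 0 one_pos (fun h => by cases h) ?_
    rw [pow_one, pow_zero, zpow_one, zpow_neg, zpow_one, inv_inv, h0]
  · simpa using hgen

end

end Pool.Agent.Helper66.TL
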